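import Pool.Agent.H66.IP.TA

set_option autoImplicit false

namespace Pool.Agent.H84.IP

open Finset Pool.Agent.H66.IP

section

variable {V : Type} [DecidableEq V]

private theorem ptw_ff (x : V) (y : V → Bool) : fp x (fp x y) = y := by
  funext v
  by_cases h : v = x
  · subst h
    simp [fp]
  · simp [fp, h]

private theorem ptw_comm (x z : V) (hxz : x ≠ z) (y : V → Bool) : fp x (fp z y) = fp z (fp x y) := by
  funext v
  by_cases h : v = x
  · subst h
    simp [fp, hxz]
  · by_cases h' : v = z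
    · subst h'
      simp [fp, h]
    · simp [fp, h, h']

private theorem ptw_dx (x z : V) (hxz : x ≠ z) (F : (V → Bool) → ℝ) (y : V → Bool) :
    |dd x z F (fp x y)| = |dd x z F y| := by
  unfold dd
  rw [← ptw_comm x z hxz y, ptw_ff, ptw_ff, ← abs_neg]
  congr 1
  ring

private theorem ptw_dz (x z : V) (F : (V → Bool) → ℝ) (y : V → Bool) :
    |dd x z F (fp z y)| = |dd x z F y| := by
  unfold dd
  rw [ptw_ff, ← abs_neg]
  congr 1
  ring

private theorem ptw_cx (x z : V) (hxz : x ≠ z) (F : (V → Bool) → ℝ) (y : V → Bool) :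
    c4 x z F (fp x y) = c4 x z F y := by
  unfold c4
  rw [← ptw_comm x z hxz y, ptw_ff, ptw_ff]
  ring

private theorem ptw_cz (x z : V) (F : (V → Bool) → ℝ) (y : V → Bool) :
    c4 x z F (fp z y) = c4 x z F y := by
  unfold c4
  rw [ptw_ff]
  ring

/-- The property holds at `y` if it holds at one of the four corners. -/
private theorem ptw_corner (x z : V) (hxz : x ≠ z) (F G : (V → Bool) → ℝ) (K : ℝ) (y y' : V → Bool)
    (hy : y' = y ∨ y' = fp x y ∨ y' = fp z y ∨ y' = fp x (fp z y))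
    (h : |dd x z F y'| ≤ K * c4 x z G y') : |dd x z F y| ≤ K * c4 x z G y := by
  rcases hy with rfl | rfl | rfl | rfl
  · exact h
  · rwa [ptw_dx x z hxz, ptw_cx x z hxz] at h
  · rwa [ptw_dz, ptw_cz] at h
  · rwa [ptw_dx x z hxz, ptw_cx x z hxz, ptw_dz, ptw_cz] at h

omit [DecidableEq V] in
private theorem ptw_lv0 (c : Bool) (τ : V → Option Bool) (y : V → Bool) :
    lv c τ y = 0 ∨ lv c τ y = 1 := by
  unfold lv
  split_ifs
  · right; rfl
  · left; rfl

private theorem ptw_lvn (c : Bool) (τ : V → Option Bool) (x : V) (hx : τ x = none) (y : V → Bool) :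
    lv c τ (fp x y) = lv c τ y := by
  unfold lv
  have : (c = true ∧ ∀ v b, τ v = some b → fp x y v = b) ↔
      (c = true ∧ ∀ v b, τ v = some b → y v = b) := by
    refine and_congr_right fun _ => forall_congr' fun v => forall_congr' fun b => ?_
    by_cases h : v = x
    · subst h
      simp [hx]
    · simp [fp, h]
  by_cases h : c = true ∧ ∀ v b, τ v = some b → y v = b
  · rw [if_pos h, if_pos (this.mpr h)]
  · rw [if_neg h, if_neg (fun h' => h (this.mp h'))]

end

/-- The constant after `h` choices. -/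
private noncomputable def KK (β : ℝ) (k h : ℕ) : ℝ :=
  Real.exp ((h : ℝ) / k) * (1 + h) * (280 * β * k)

private theorem KK_pos (β : ℝ) (k h : ℕ) (hβ : 1 ≤ β) : 0 ≤ KK β k h := by
  unfold KK
  have : 0 < β := by linarith
  positivity

private theorem KK_mono (β : ℝ) (k h h' : ℕ) (hβ : 1 ≤ β) (hh : h ≤ h') :
    KK β k h ≤ KK β k h' := by
  unfold KK
  have h0 : 0 < β := by linarith
  have h1 : (h : ℝ) ≤ h' := by exact_mod_cast hh
  have h2 : (h : ℝ) / k ≤ (h' : ℝ) / k := div_le_div_of_nonneg_right h1 (Nat.cast_nonneg _)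
  have h3 : Real.exp ((h : ℝ) / k) ≤ Real.exp ((h' : ℝ) / k) := Real.exp_le_exp.mpr h2
  refine mul_le_mul_of_nonneg_right ?_ (by positivity)
  exact mul_le_mul h3 (by linarith) (by positivity) (by positivity)

private theorem KK_one (β : ℝ) (k h : ℕ) (hβ : 1 ≤ β) : 280 * β * k ≤ KK β k h := by
  have h1 := KK_mono β k 0 h hβ (Nat.zero_le _)
  have h2 : KK β k 0 = 280 * β * k := by
    unfold KK
    simp
  linarith

private theorem KK_step (β : ℝ) (k h : ℕ) (hβ : 1 ≤ β) (hk : 1 ≤ k) :
    Real.exp (1 / k) * KK β k h + 120 * β * k ≤ KK β k (h + 1) := by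
  unfold KK
  have h0 : 0 < β := by linarith
  have hk0 : (0 : ℝ) < k := by exact_mod_cast hk
  have e1 : Real.exp (((h + 1 : ℕ) : ℝ) / k) = Real.exp (1 / k) * Real.exp ((h : ℝ) / k) := by
    rw [← Real.exp_add]
    congr 1
    push_cast
    ring
  have e2 : (1 : ℝ) ≤ Real.exp (1 / k) * Real.exp ((h : ℝ) / k) := by
    rw [← Real.exp_add]
    exact Real.one_le_exp (by positivity)
  rw [e1]
  push_cast
  have h3 : 0 ≤ β * k := by positivity
  have h4 : β * k ≤ (Real.exp (1 / k) * Real.exp ((h : ℝ) / k)) * (β * k) := by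
    nlinarith
  nlinarith

private theorem KK_top (β : ℝ) (k h : ℕ) (hβ : 1 ≤ β) (hk : 1 ≤ k) (hh : h ≤ k) :
    KK β k h ≤ 2000 * β * (k : ℝ) ^ 2 := by
  refine (KK_mono β k h k hβ hh).trans ?_
  unfold KK
  have h0 : 0 < β := by linarith
  have hk0 : (0 : ℝ) < k := by exact_mod_cast hk
  have hk1 : (1 : ℝ) ≤ k := by exact_mod_cast hk
  rw [div_self hk0.ne']
  have h1 : Real.exp 1 ≤ 3 := by
    have := Real.exp_one_lt_d9
    linarith
  have h2 : Real.exp 1 ≤ 25 / 7 := by linarith
  have h3 : Real.exp 1 * (1 + (k : ℝ)) ≤ 25 / 7 * (2 * k) :=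
    mul_le_mul h2 (by linarith) (by positivity) (by norm_num)
  have h4 : (0 : ℝ) ≤ 280 * β * k := by positivity
  calc Real.exp 1 * (1 + (k : ℝ)) * (280 * β * k) ≤ 25 / 7 * (2 * k) * (280 * β * k) :=
        mul_le_mul_of_nonneg_right h3 h4
    _ = 2000 * β * (k : ℝ) ^ 2 := by ring

private theorem ptw_claim (hRSM : T_RSM) (hHVY : T_HVY)
    (hLGT : T_LGT) (V : Type) [Fintype V] [DecidableEq V] (β : ℝ) (k : ℕ) (y : V → Bool) (x z : V)
    (hβ : 1 ≤ β) (hk : 1 ≤ k) (hxz : x ≠ z) (t : Tr V) (ht : t.cc ≤ k) :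
    |dd x z (t.sv β) y| ≤ KK β k t.cc * c4 x z (t.rr β x z) y := by
  have hβ0 : 0 < β := by linarith
  have rr0 : ∀ (s : Tr V) (y' : V → Bool), 0 ≤ s.rr β x z y' := fun s y' =>
    ((hRSM V β s y' hβ0).1 x z).1.trans ((hRSM V β s y' hβ0).1 x z).2
  have own0 : ∀ (s : Tr V) (y' : V → Bool), 0 ≤ s.own β x z y' := fun s y' =>
    ((hRSM V β s y' hβ0).1 x z).1
  have c0 : ∀ (s : Tr V), 0 ≤ c4 x z (s.rr β x z) y := fun s => by
    unfold c4
    have := rr0 s y
    have := rr0 s (fp x y)
    have := rr0 s (fp z y)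
    have := rr0 s (fp x (fp z y))
    linarith
  induction t with
  | lf c τ =>
    have hc := c0 (Tr.lf c τ)
    have hK := KK_one β k (Tr.lf c τ).cc hβ
    have hk1 : (1 : ℝ) ≤ k := by exact_mod_cast hk
    have hK1 : 1 ≤ KK β k (Tr.lf c τ).cc := by nlinarith
    by_cases hx : τ x = none
    · have e : dd x z ((Tr.lf c τ).sv β) y = 0 := by
        show lv c τ (fp x (fp z y)) - lv c τ (fp x y) - lv c τ (fp z y) + lv c τ y = 0
        rw [ptw_lvn c τ x hx, ptw_lvn c τ x hx]
        ring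
      rw [e, abs_zero]
      exact mul_nonneg (by linarith) hc
    by_cases hz : τ z = none
    · have e : dd x z ((Tr.lf c τ).sv β) y = 0 := by
        show lv c τ (fp x (fp z y)) - lv c τ (fp x y) - lv c τ (fp z y) + lv c τ y = 0
        rw [ptw_comm x z hxz, ptw_lvn c τ z hz, ptw_lvn c τ z hz]
        ring
      rw [e, abs_zero]
      exact mul_nonneg (by linarith) hc
    have hl : ∀ y' : V → Bool, lv c τ y' ≤ (Tr.lf c τ).rr β x z y' := by
      intro y'
      have m1 : ∀ y'' : V → Bool, (Tr.lf c τ).ms β x y'' = lv c τ y'' := fun y'' => by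
        simp [Tr.ms, hx]
      have m2 : ∀ y'' : V → Bool, (Tr.lf c τ).ms β z y'' = lv c τ y'' := fun y'' => by
        simp [Tr.ms, hz]
      have e : (Tr.lf c τ).rr β x z y' = lv c τ y' * (lv c τ y' + lv c τ (fp x y')) +
          lv c τ y' * (lv c τ y' + lv c τ (fp z y')) := by
        show (Tr.lf c τ).own β x z y' = _
        unfold Tr.own
        rw [m1, m1, m2, m2]
        rfl
      rw [e]
      rcases ptw_lv0 c τ y' with h | h <;> rcases ptw_lv0 c τ (fp x y') with h' | h' <;>
        rcases ptw_lv0 c τ (fp z y') with h'' | h'' <;> rw [h, h', h''] <;> norm_num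
    have lp : ∀ y' : V → Bool, 0 ≤ lv c τ y' := fun y' => by
      rcases ptw_lv0 c τ y' with h | h <;> rw [h]
      norm_num
    have e1 : |dd x z ((Tr.lf c τ).sv β) y| ≤ c4 x z ((Tr.lf c τ).rr β x z) y := by
      show |lv c τ (fp x (fp z y)) - lv c τ (fp x y) - lv c τ (fp z y) + lv c τ y| ≤
        (Tr.lf c τ).rr β x z y + (Tr.lf c τ).rr β x z (fp x y) + (Tr.lf c τ).rr β x z (fp z y) +
          (Tr.lf c τ).rr β x z (fp x (fp z y))
      have h1 := hl y
      have h2 := hl (fp x y)
      have h3 := hl (fp z y)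
      have h4 := hl (fp x (fp z y))
      have p1 := lp y
      have p2 := lp (fp x y)
      have p3 := lp (fp z y)
      have p4 := lp (fp x (fp z y))
      rw [abs_le]
      constructor <;> linarith
    calc |dd x z ((Tr.lf c τ).sv β) y| ≤ 1 * c4 x z ((Tr.lf c τ).rr β x z) y := by
          rw [one_mul]; exact e1
      _ ≤ KK β k (Tr.lf c τ).cc * c4 x z ((Tr.lf c τ).rr β x z) y :=
          mul_le_mul_of_nonneg_right hK1 hc
  | av l r hl hr =>
    have e1 : (Tr.av l r).cc = max l.cc r.cc := rfl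
    rw [e1] at ht
    have h1 := hl ((le_max_left _ _).trans ht)
    have h2 := hr ((le_max_right _ _).trans ht)
    have k1 := mul_le_mul_of_nonneg_right (KK_mono β k l.cc (max l.cc r.cc) hβ (le_max_left _ _))
      (c0 l)
    have k2 := mul_le_mul_of_nonneg_right (KK_mono β k r.cc (max l.cc r.cc) hβ (le_max_right _ _))
      (c0 r)
    have e2 : dd x z ((Tr.av l r).sv β) y = (dd x z (l.sv β) y + dd x z (r.sv β) y) / 2 := by
      unfold dd
      simp only [Tr.sv]
      ring
    have e3 : (c4 x z (l.rr β x z) y + c4 x z (r.rr β x z) y) / 2 ≤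
        c4 x z ((Tr.av l r).rr β x z) y := by
      have o1 := own0 (Tr.av l r) y
      have o2 := own0 (Tr.av l r) (fp x y)
      have o3 := own0 (Tr.av l r) (fp z y)
      have o4 := own0 (Tr.av l r) (fp x (fp z y))
      unfold c4
      simp only [Tr.rr]
      linarith
    have e4 : |dd x z (l.sv β) y + dd x z (r.sv β) y| ≤ |dd x z (l.sv β) y| + |dd x z (r.sv β) y| :=
      abs_add_le _ _
    rw [e1, e2, abs_div, abs_two]
    have e5 := mul_le_mul_of_nonneg_left e3 (KK_pos β k (max l.cc r.cc) hβ)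
    have e6 : KK β k (max l.cc r.cc) * ((c4 x z (l.rr β x z) y + c4 x z (r.rr β x z) y) / 2) =
      (KK β k (max l.cc r.cc) * c4 x z (l.rr β x z) y +
        KK β k (max l.cc r.cc) * c4 x z (r.rr β x z) y) / 2 := by ring
    linarith
  | ch l r hl hr =>
    have e1 : (Tr.ch l r).cc = max l.cc r.cc + 1 := rfl
    by_cases hbig : ∃ y', (y' = y ∨ y' = fp x y ∨ y' = fp z y ∨ y' = fp x (fp z y)) ∧
        (tht β k ≤ (Tr.ch l r).ms β x y' ∨ tht β k ≤ (Tr.ch l r).ms β z y')
    · obtain ⟨y', hy', hm⟩ := hbig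
      have h1 := hHVY V β k (Tr.ch l r) y' x z hβ hk ht hxz hm
      have h2 := ptw_corner x z hxz _ _ _ y y' hy' h1
      refine h2.trans (mul_le_mul_of_nonneg_right ?_ (c0 _))
      have h3 := KK_one β k (Tr.ch l r).cc hβ
      have h4 : 7 / tht β k = 280 * β * k := by
        unfold tht
        have hk0 : (0 : ℝ) < k := by exact_mod_cast hk
        field_simp
        norm_num
      linarith
    · have hsm : ∀ y', y' = y ∨ y' = fp x y ∨ y' = fp z y ∨ y' = fp x (fp z y) →
          (Tr.ch l r).ms β x y' < tht β k ∧ (Tr.ch l r).ms β z y' < tht β k := by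
        intro y' hy'
        by_contra hc
        apply hbig
        refine ⟨y', hy', ?_⟩
        by_contra hc'
        push Not at hc'
        exact hc ⟨hc'.1, hc'.2⟩
      have ht' : max l.cc r.cc ≤ k := by
        rw [e1] at ht
        omega
      have h1 := hl ((le_max_left _ _).trans ht')
      have h2 := hr ((le_max_right _ _).trans ht')
      have k1 := mul_le_mul_of_nonneg_right (KK_mono β k l.cc (max l.cc r.cc) hβ (le_max_left _ _))
        (c0 l)
      have k2 := mul_le_mul_of_nonneg_right (KK_mono β k r.cc (max l.cc r.cc) hβ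
        (le_max_right _ _)) (c0 r)
      have h3 := hLGT V β k l r (KK β k (max l.cc r.cc)) y x z hβ hk ht hxz (KK_pos _ _ _ hβ) hsm
        (h1.trans k1) (h2.trans k2)
      rw [e1]
      exact h3.trans (mul_le_mul_of_nonneg_right (KK_step β k (max l.cc r.cc) hβ hk) (c0 _))

theorem pf_PTW (hRSM : T_RSM) (hHVY : T_HVY) (hLGT : T_LGT) : T_PTW := by
  intro V _ _ β k t y x z hβ hk ht hxz
  have h := ptw_claim hRSM hHVY hLGT V β k y x z hβ hk hxz t ht
  refine h.trans (mul_le_mul_of_nonneg_right (KK_top β k t.cc hβ hk ht) ?_)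
  have hβ0 : 0 < β := by linarith
  have rr0 : ∀ (y' : V → Bool), 0 ≤ t.rr β x z y' := fun y' =>
    ((hRSM V β t y' hβ0).1 x z).1.trans ((hRSM V β t y' hβ0).1 x z).2
  unfold c4
  have := rr0 y
  have := rr0 (fp x y)
  have := rr0 (fp z y)
  have := rr0 (fp x (fp z y))
  linarith

end Pool.Agent.H84.IP
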