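import Pool.Agent.H66.IP.TB

set_option autoImplicit false

namespace Pool.Agent.H84.IP

open Finset Pool.Agent.H66.IP
open Pool.Agent.H78.XQ (nt ws wm)
open Pool.Agent.H70.EH (mn)

/-- Lipschitz bound in an interval of integers. -/
private theorem gwt_lip (g : ℕ → ℝ) (c : ℝ) (a b : ℕ)
    (h : ∀ v, a ≤ v → v + 1 ≤ b → |g (v + 1) - g v| ≤ c) :
    ∀ n v, a ≤ v → v + n ≤ b → |g (v + n) - g v| ≤ n * c := by
  intro n
  induction n with
  | zero =>
    intro v _ _
    simp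
  | succ n ih =>
    intro v hv hb
    have h1 := ih v hv (by omega)
    have h2 := h (v + n) (by omega) (by omega)
    have e : g (v + (n + 1)) - g v = (g (v + n + 1) - g (v + n)) + (g (v + n) - g v) := by
      rw [← add_assoc]
      ring
    rw [e]
    refine (abs_add_le _ _).trans ?_
    push_cast
    linarith

private theorem gwt_wm (V : Type) [Fintype V] [DecidableEq V] (W : ℕ) (F : (V → Bool) → ℝ)
    (h0 : ∀ y, 0 ≤ F y) (h1 : ∀ y, F y ≤ 1) :
    0 ≤ wm (fun _ => none) W F ∧ wm (fun _ => none) W F ≤ 1 := by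
  unfold wm
  constructor
  · exact div_nonneg (Finset.sum_nonneg fun y _ => h0 y) (Nat.cast_nonneg _)
  · refine div_le_one_of_le₀ ?_ (Nat.cast_nonneg _)
    calc ∑ y ∈ ws (fun _ => none) W, F y ≤ ∑ y ∈ ws (fun _ : V => none) W, (1 : ℝ) :=
          Finset.sum_le_sum fun y _ => h1 y
      _ = (ws (fun _ : V => none) W).card := by simp

theorem pf_GWT (hADJ : T_ADJ) (hVRN : T_VRN) (hEVS : T_EVS) : T_GWT := by
  intro V _ _ _ W w δ t hδ0 hδ hw hW
  set N : ℕ := Fintype.card V with hN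
  have hN1 : 1 ≤ N := Fintype.card_pos
  have hNr : (1 : ℝ) ≤ N := by exact_mod_cast hN1
  have hN0 : (0 : ℝ) < N := by linarith
  set g : ℕ → ℝ := fun W => wm (fun _ => none) W t.ev with hg
  have ev0 : ∀ y, 0 ≤ t.ev y := fun y =>
    (hEVS V 1 t y one_pos).1.trans (hEVS V 1 t y one_pos).2.1
  have ev1 : ∀ y, t.ev y ≤ 1 := fun y => (hEVS V 1 t y one_pos).2.2.1
  have hg01 : ∀ W, 0 ≤ g W ∧ g W ≤ 1 := fun W => gwt_wm V W t.ev ev0 ev1
  have hw0 : (0 : ℝ) ≤ w := Nat.cast_nonneg _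
  have hs0 : 0 < √(N : ℝ) := Real.sqrt_pos.mpr hN0
  have hss : √(N : ℝ) * √(N : ℝ) = N := Real.mul_self_sqrt hN0.le
  obtain ⟨hmn, hvar⟩ := hVRN V
  rw [← hN] at hvar
  -- the weights
  set P : ℕ → ℝ := fun W' => (N.choose W' : ℝ) / 2 ^ N with hP
  have hP0 : ∀ W', 0 ≤ P W' := fun W' => by
    rw [hP]
    positivity
  have hP1 : ∑ W' ∈ range (N + 1), P W' = 1 := by
    rw [hP, ← Finset.sum_div, ← Nat.cast_sum, Nat.sum_range_choose]
    push_cast
    exact div_self (by positivity)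
  have hmn' : mn t.ev = ∑ W' ∈ range (N + 1), P W' * g W' := hmn t.ev
  have hvar' : ∑ W' ∈ range (N + 1), P W' * ((W' : ℝ) - (N : ℝ) / 2) ^ 2 = (N : ℝ) / 4 := hvar
  have hdiff : g W - mn t.ev = ∑ W' ∈ range (N + 1), P W' * (g W - g W') := by
    rw [hmn']
    simp_rw [mul_sub]
    rw [Finset.sum_sub_distrib, ← Finset.sum_mul, hP1, one_mul]
  show |g W - mn t.ev| ≤ _
  have hrhs0 : 0 ≤ 4 * (w : ℝ) * (δ + 1 / √(N : ℝ)) := by positivity
  by_cases hsmall : (N : ℝ) ≤ 16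
  · have h1 : 1 ≤ 16 / (N : ℝ) := by
      rw [le_div_iff₀ hN0]
      linarith
    have h2 : |g W - mn t.ev| ≤ 1 := by
      rw [hdiff]
      calc |∑ W' ∈ range (N + 1), P W' * (g W - g W')|
          ≤ ∑ W' ∈ range (N + 1), |P W' * (g W - g W')| := Finset.abs_sum_le_sum_abs _ _
        _ ≤ ∑ W' ∈ range (N + 1), P W' * 1 := by
            refine Finset.sum_le_sum fun W' _ => ?_
            rw [abs_mul, abs_of_nonneg (hP0 W')]
            refine mul_le_mul_of_nonneg_left ?_ (hP0 W')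
            have h3 := hg01 W
            have h4 := hg01 W'
            rw [abs_le]
            constructor <;> linarith [h3.1, h3.2, h4.1, h4.2]
        _ = 1 := by rw [← Finset.sum_mul, hP1, one_mul]
    linarith
  push Not at hsmall
  -- the Lipschitz constant
  set c : ℝ := 8 * w / (3 * N) with hc
  have hc0 : 0 ≤ c := by rw [hc]; positivity
  have hW1 : 3 / 8 * (N : ℝ) ≤ W := by
    have := (abs_le.mp hW).1
    nlinarith
  have hW2 : (W : ℝ) ≤ 5 / 8 * N := by
    have := (abs_le.mp hW).2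
    nlinarith
  have hstep : ∀ v : ℕ, 3 / 8 * (N : ℝ) ≤ v → ((v + 1 : ℕ) : ℝ) ≤ 5 / 8 * N →
      |g (v + 1) - g v| ≤ c := by
    intro v hv hv'
    have hv1 : v + 1 ≤ N := by
      have : ((v + 1 : ℕ) : ℝ) ≤ N := by linarith
      exact_mod_cast this
    have h := hADJ V v w t hw (by rw [← hN]; exact hv1)
    rw [← hN] at h
    push_cast at hv'
    have h1 : (w : ℝ) / (v + 1) ≤ c := by
      rw [hc, div_le_div_iff₀ (by positivity) (by positivity)]
      nlinarith
    have h2 : (w : ℝ) / (N - v) ≤ c := by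
      rw [hc, div_le_div_iff₀ (by linarith) (by positivity)]
      nlinarith
    have h3 : g (v + 1) - g v ≤ w / (v + 1) := h.1
    have h4 : g v - g (v + 1) ≤ w / (N - v) := h.2
    rw [abs_le]
    constructor <;> linarith
  have hlip : ∀ v v' : ℕ, 3 / 8 * (N : ℝ) ≤ v → v ≤ v' → (v' : ℝ) ≤ 5 / 8 * N →
      |g v' - g v| ≤ ((v' : ℝ) - v) * c := by
    intro v v' hv hvv hv'
    have h := gwt_lip g c v v' (fun u hu hu' => hstep u (by
      have : (v : ℝ) ≤ u := by exact_mod_cast hu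
      linarith) (by
      have : ((u + 1 : ℕ) : ℝ) ≤ v' := by exact_mod_cast hu'
      linarith)) (v' - v) v le_rfl (by omega)
    rw [Nat.add_sub_cancel' hvv, Nat.cast_sub hvv] at h
    exact h
  have hpt : ∀ W' : ℕ, |g W - g W'| ≤ c * (|(W : ℝ) - N / 2| + |(W' : ℝ) - N / 2|) +
      64 / (N : ℝ) ^ 2 * ((W' : ℝ) - N / 2) ^ 2 := by
    intro W'
    have hA : 0 ≤ c * (|(W : ℝ) - N / 2| + |(W' : ℝ) - N / 2|) := by positivity
    have hB : 0 ≤ 64 / (N : ℝ) ^ 2 * ((W' : ℝ) - N / 2) ^ 2 := by positivity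
    by_cases hin : 3 / 8 * (N : ℝ) ≤ W' ∧ (W' : ℝ) ≤ 5 / 8 * N
    · have h1 : |g W - g W'| ≤ |(W : ℝ) - W'| * c := by
        rcases le_total W W' with h | h
        · have h2 := hlip W W' hW1 h hin.2
          have h3 : (W : ℝ) ≤ W' := by exact_mod_cast h
          rw [abs_sub_comm, abs_sub_comm (W : ℝ), abs_of_nonneg (by linarith : (0 : ℝ) ≤ W' - W)]
          exact h2
        · have h2 := hlip W' W hin.1 h hW2
          have h3 : (W' : ℝ) ≤ W := by exact_mod_cast h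
          rw [abs_of_nonneg (by linarith : (0 : ℝ) ≤ (W : ℝ) - W')]
          exact h2
      have h2 : |(W : ℝ) - W'| ≤ |(W : ℝ) - N / 2| + |(W' : ℝ) - N / 2| := by
        have e : (W : ℝ) - W' = ((W : ℝ) - N / 2) - ((W' : ℝ) - N / 2) := by ring
        rw [e]
        exact abs_sub _ _
      have h3 := mul_le_mul_of_nonneg_right h2 hc0
      linarith
    · have h1 : |g W - g W'| ≤ 1 := by
        have h3 := hg01 W
        have h4 := hg01 W'
        rw [abs_le]
        constructor <;> linarith [h3.1, h3.2, h4.1, h4.2]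
      have h2 : (N : ℝ) ^ 2 / 64 ≤ ((W' : ℝ) - N / 2) ^ 2 := by
        rw [not_and_or] at hin
        rcases hin with h | h
        · push Not at h
          nlinarith
        · push Not at h
          nlinarith
      have h3 : 1 ≤ 64 / (N : ℝ) ^ 2 * ((W' : ℝ) - N / 2) ^ 2 := by
        calc (1 : ℝ) = 64 / (N : ℝ) ^ 2 * ((N : ℝ) ^ 2 / 64) := by
              field_simp
          _ ≤ _ := mul_le_mul_of_nonneg_left h2 (by positivity)
      linarith
  -- first absolute moment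
  have habs : ∑ W' ∈ range (N + 1), P W' * |(W' : ℝ) - N / 2| ≤ √(N : ℝ) / 2 := by
    have hpt2 : ∀ W' : ℕ, |(W' : ℝ) - N / 2| ≤ √(N : ℝ) / 4 + ((W' : ℝ) - N / 2) ^ 2 / √(N : ℝ) := by
      intro W'
      have h1 : 0 ≤ (|(W' : ℝ) - N / 2| - √(N : ℝ) / 2) ^ 2 := sq_nonneg _
      have h2 : |(W' : ℝ) - N / 2| ^ 2 = ((W' : ℝ) - N / 2) ^ 2 := sq_abs _
      have h3 : |(W' : ℝ) - N / 2| * √(N : ℝ) ≤ (√(N : ℝ) / 4) * √(N : ℝ) +
          ((W' : ℝ) - N / 2) ^ 2 := by
        nlinarith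
      have h4 : √(N : ℝ) / 4 + ((W' : ℝ) - N / 2) ^ 2 / √(N : ℝ) =
          ((√(N : ℝ) / 4) * √(N : ℝ) + ((W' : ℝ) - N / 2) ^ 2) / √(N : ℝ) := by
        field_simp
      rw [h4, le_div_iff₀ hs0]
      exact h3
    calc ∑ W' ∈ range (N + 1), P W' * |(W' : ℝ) - N / 2|
        ≤ ∑ W' ∈ range (N + 1), (P W' * (√(N : ℝ) / 4) +
            P W' * ((W' : ℝ) - N / 2) ^ 2 / √(N : ℝ)) := by
          refine Finset.sum_le_sum fun W' _ => ?_
          have := mul_le_mul_of_nonneg_left (hpt2 W') (hP0 W')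
          refine this.trans (le_of_eq ?_)
          ring
      _ = √(N : ℝ) / 4 + (N : ℝ) / 4 / √(N : ℝ) := by
          rw [Finset.sum_add_distrib, ← Finset.sum_mul, hP1, one_mul, ← Finset.sum_div, hvar']
      _ = √(N : ℝ) / 2 := by
          field_simp
          nlinarith
  have hfin : |g W - mn t.ev| ≤ c * (δ * N + √(N : ℝ) / 2) + 64 / (N : ℝ) ^ 2 * ((N : ℝ) / 4) := by
    rw [hdiff]
    calc |∑ W' ∈ range (N + 1), P W' * (g W - g W')|
        ≤ ∑ W' ∈ range (N + 1), |P W' * (g W - g W')| := Finset.abs_sum_le_sum_abs _ _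
      _ ≤ ∑ W' ∈ range (N + 1), (P W' * (c * |(W : ℝ) - N / 2|) +
            c * (P W' * |(W' : ℝ) - N / 2|) +
            64 / (N : ℝ) ^ 2 * (P W' * ((W' : ℝ) - N / 2) ^ 2)) := by
          refine Finset.sum_le_sum fun W' _ => ?_
          rw [abs_mul, abs_of_nonneg (hP0 W')]
          have := mul_le_mul_of_nonneg_left (hpt W') (hP0 W')
          refine this.trans (le_of_eq ?_)
          ring
      _ = c * |(W : ℝ) - N / 2| + c * (∑ W' ∈ range (N + 1), P W' * |(W' : ℝ) - N / 2|) +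
            64 / (N : ℝ) ^ 2 * ((N : ℝ) / 4) := by
          rw [Finset.sum_add_distrib, Finset.sum_add_distrib, ← Finset.sum_mul, hP1, one_mul,
            ← Finset.mul_sum, ← Finset.mul_sum, hvar']
      _ ≤ c * (δ * N) + c * (√(N : ℝ) / 2) + 64 / (N : ℝ) ^ 2 * ((N : ℝ) / 4) := by
          have h1 := mul_le_mul_of_nonneg_left hW hc0
          have h2 := mul_le_mul_of_nonneg_left habs hc0
          linarith
      _ = _ := by ring
  refine hfin.trans ?_
  have e1 : c * (δ * N + √(N : ℝ) / 2) = 8 / 3 * w * (δ + 1 / (2 * √(N : ℝ))) := by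
    rw [hc]
    have h3 : (N : ℝ) = √(N : ℝ) ^ 2 := by rw [sq]; exact hss.symm
    have h4 : √(N : ℝ) ≠ 0 := hs0.ne'
    have h5 : 1 / (2 * √(N : ℝ)) = √(N : ℝ) / 2 / N := by
      rw [div_div, div_eq_div_iff (by positivity) (by positivity)]
      nlinarith
    rw [h5]
    field_simp
  have e2 : 64 / (N : ℝ) ^ 2 * ((N : ℝ) / 4) = 16 / N := by
    field_simp
    norm_num
  rw [e1, e2]
  have h6 : 1 / (2 * √(N : ℝ)) ≤ 1 / √(N : ℝ) := one_div_le_one_div_of_le hs0 (by linarith)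
  have h7 : 8 / 3 * (w : ℝ) * (δ + 1 / (2 * √(N : ℝ))) ≤ 4 * w * (δ + 1 / √(N : ℝ)) := by
    have h8 : 0 ≤ 1 / (2 * √(N : ℝ)) := by positivity
    exact mul_le_mul (by linarith) (by linarith) (by linarith) (by linarith)
  linarith

end Pool.Agent.H84.IP
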